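import Mathlib

set_option autoImplicit false

namespace Pool.Agent.Results.MP_d5a612_co.Biplanar

open SimpleGraph

/-- `G` is planar: it has a drawing in the plane `ℂ` in which the vertices are distinct points,
every edge is a simple arc (the image of an injective continuous path) joining its two ends, an
arc contains no vertex point except its two ends, and two different arcs meet only in points that
are common end vertices of both edges. -/
def IsPlanar {V : Type*} (G : SimpleGraph V) : Prop :=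
  ∃ (pt : V → ℂ) (arc : Sym2 V → Set ℂ),
    Function.Injective pt ∧
    (∀ u v, G.Adj u v →
      ∃ γ : _root_.Path (pt u) (pt v), Function.Injective γ ∧ Set.range γ = arc s(u, v)) ∧
    (∀ u v w, G.Adj u v → pt w ∈ arc s(u, v) → w = u ∨ w = v) ∧
    (∀ e ∈ G.edgeSet, ∀ f ∈ G.edgeSet, e ≠ f →
      ∀ z ∈ arc e ∩ arc f, ∃ w, w ∈ e ∧ w ∈ f ∧ z = pt w)

/-- `G` is biplanar: its edge set is the disjoint union of the edge sets of two planar graphs on
the same vertex set. -/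
def IsBiplanar {V : Type*} (G : SimpleGraph V) : Prop :=
  ∃ G₁ G₂ : SimpleGraph V, IsPlanar G₁ ∧ IsPlanar G₂ ∧
    Disjoint G₁.edgeSet G₂.edgeSet ∧ G₁.edgeSet ∪ G₂.edgeSet = G.edgeSet

theorem IsPlanar.of_injective {V W : Type*} {G : SimpleGraph V} {H : SimpleGraph W}
    (hH : IsPlanar H) (f : V → W) (hf : Function.Injective f)
    (hadj : ∀ u v, G.Adj u v → H.Adj (f u) (f v)) : IsPlanar G := by
  obtain ⟨pt, arc, h1, h2, h3, h4⟩ := hH
  refine ⟨fun v => pt (f v), fun e => arc (e.map f), h1.comp hf, ?_, ?_, ?_⟩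
  · intro u v huv
    exact h2 _ _ (hadj u v huv)
  · intro u v w huv hw
    rcases h3 (f u) (f v) (f w) (hadj u v huv) hw with h | h
    · exact Or.inl (hf h)
    · exact Or.inr (hf h)
  · intro e he e' he' hne z hz
    have key : ∀ e ∈ G.edgeSet, e.map f ∈ H.edgeSet := by
      intro e
      induction e using Sym2.ind with
      | _ u v => intro h; exact hadj u v h
    obtain ⟨w, hw1, hw2, hw3⟩ := h4 (e.map f) (key e he) (e'.map f) (key e' he')
      (fun h => hne (Sym2.map.injective hf h)) z hz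
    rw [Sym2.mem_map] at hw1 hw2
    obtain ⟨x, hx, hxw⟩ := hw1
    obtain ⟨y, hy, hyw⟩ := hw2
    have : x = y := hf (hxw.trans hyw.symm)
    subst this
    exact ⟨x, hx, hy, by rw [hw3, ← hxw]⟩

/-- The point of the unit circle at angle `2 π t / a`. -/
noncomputable def ang (a : ℕ) (t : ℝ) : ℂ :=
  Complex.exp (((2 * Real.pi * t / a : ℝ) : ℂ) * Complex.I)

theorem norm_ang (a : ℕ) (t : ℝ) : ‖ang a t‖ = 1 := Complex.norm_exp_ofReal_mul_I _

theorem continuous_ang (a : ℕ) : Continuous (ang a) := by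
  unfold ang
  fun_prop

theorem ang_eq {a : ℕ} (ha : 0 < a) {t s : ℝ} (h : ang a t = ang a s) :
    ∃ n : ℤ, t = s + n * a := by
  unfold ang at h
  rw [Complex.exp_eq_exp_iff_exists_int] at h
  obtain ⟨n, hn⟩ := h
  refine ⟨n, ?_⟩
  have ha' : (a : ℝ) ≠ 0 := by positivity
  have h2 : (2 * Real.pi * t / a : ℝ) = (2 * Real.pi * s / a : ℝ) + n * (2 * Real.pi) := by
    have := congrArg Complex.im hn
    simpa using this
  have hpi : (2 * Real.pi) ≠ 0 := by positivity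
  field_simp at h2
  nlinarith [h2, Real.pi_pos]

theorem ang_add_int_mul {a : ℕ} (ha : 0 < a) (t : ℝ) (n : ℤ) : ang a (t + n * a) = ang a t := by
  unfold ang
  rw [Complex.exp_eq_exp_iff_exists_int]
  refine ⟨n, ?_⟩
  have ha' : (a : ℂ) ≠ 0 := by exact_mod_cast ha.ne'
  push_cast
  field_simp

theorem polar_unique {a : ℕ} (ha : 0 < a) {r r' t s : ℝ} (hr : 0 < r) (hr' : 0 < r')
    (h : (r : ℂ) * ang a t = (r' : ℂ) * ang a s) : r = r' ∧ ∃ n : ℤ, t = s + n * a := by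
  have h1 : r = r' := by
    have := congrArg norm h
    simpa [norm_ang, abs_of_pos hr, abs_of_pos hr'] using this
  subst h1
  refine ⟨rfl, ang_eq ha ?_⟩
  have : (r : ℂ) ≠ 0 := by exact_mod_cast hr.ne'
  exact mul_left_cancel₀ this h

/-- The infinite cylindrical grid: `Fin a × ℕ`, the `a`-cycle times the one-way infinite path. -/
def gridRel (a : ℕ) (u v : Fin a × ℕ) : Prop :=
  (u.1 = v.1 ∧ v.2 = u.2 + 1) ∨ (u.2 = v.2 ∧ (v.1 : ℕ) = (u.1 + 1) % a)

def grid (a : ℕ) : SimpleGraph (Fin a × ℕ) := SimpleGraph.fromRel (gridRel a)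

/-- Radial arc. -/
def radial (a : ℕ) (i k : ℕ) : Set ℂ :=
  {z | ∃ r : ℝ, (k + 1 : ℝ) ≤ r ∧ r ≤ k + 2 ∧ z = (r : ℂ) * ang a i}

/-- Circular arc. -/
def circ (a : ℕ) (i k : ℕ) : Set ℂ :=
  {z | ∃ t : ℝ, (i : ℝ) ≤ t ∧ t ≤ i + 1 ∧ z = ((k + 1 : ℝ) : ℂ) * ang a t}

/-- The arc of an edge of the grid. -/
def gridArc (a : ℕ) (e : Sym2 (Fin a × ℕ)) : Set ℂ :=
  {z | (∃ (i : Fin a) (k : ℕ), e = s((i, k), (i, k + 1)) ∧ z ∈ radial a i k) ∨
    (∃ (i j : Fin a) (k : ℕ), (j : ℕ) = (i + 1) % a ∧ e = s((i, k), (j, k)) ∧ z ∈ circ a i k)}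

noncomputable def gridPt (a : ℕ) (u : Fin a × ℕ) : ℂ := ((u.2 + 1 : ℝ) : ℂ) * ang a (u.1 : ℕ)

theorem gridArc_radial {a : ℕ} (i : Fin a) (k : ℕ) :
    gridArc a s((i, k), (i, k + 1)) = radial a i k := by
  ext z
  constructor
  · rintro (⟨i', k', h, hz⟩ | ⟨i', j', k', hj, h, hz⟩)
    · simp only [Sym2.eq_iff, Prod.mk.injEq] at h
      rcases h with ⟨⟨h1, h2⟩, h3, h4⟩ | ⟨⟨h1, h2⟩, h3, h4⟩
      · subst h1; subst h2; exact hz
      · omega
    · simp only [Sym2.eq_iff, Prod.mk.injEq] at h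
      rcases h with ⟨⟨h1, h2⟩, h3, h4⟩ | ⟨⟨h1, h2⟩, h3, h4⟩ <;> omega
  · intro hz
    exact Or.inl ⟨i, k, rfl, hz⟩

theorem gridArc_circ {a : ℕ} (ha : 3 ≤ a) (i j : Fin a) (k : ℕ) (hij : (j : ℕ) = (i + 1) % a) :
    gridArc a s((i, k), (j, k)) = circ a i k := by
  ext z
  constructor
  · rintro (⟨i', k', h, hz⟩ | ⟨i', j', k', hj, h, hz⟩)
    · simp only [Sym2.eq_iff, Prod.mk.injEq] at h
      rcases h with ⟨⟨h1, h2⟩, h3, h4⟩ | ⟨⟨h1, h2⟩, h3, h4⟩ <;> omega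
    · simp only [Sym2.eq_iff, Prod.mk.injEq] at h
      rcases h with ⟨⟨h1, h2⟩, h3, h4⟩ | ⟨⟨h1, h2⟩, h3, h4⟩
      · subst h1; subst h2; exact hz
      · exfalso
        subst h1; subst h3
        have h5 := i.2
        have h6 := j.2
        rcases Nat.lt_or_ge (i + 1 : ℕ) a with h7 | h7
        · rw [Nat.mod_eq_of_lt h7] at hij
          rcases Nat.lt_or_ge (j + 1 : ℕ) a with h8 | h8
          · rw [Nat.mod_eq_of_lt h8] at hj; omega
          · have : (j + 1 : ℕ) = a := by omega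
            rw [this, Nat.mod_self] at hj; omega
        · have : (i + 1 : ℕ) = a := by omega
          rw [this, Nat.mod_self] at hij
          rw [hij, Nat.mod_eq_of_lt (by omega)] at hj
          omega
  · intro hz
    exact Or.inr ⟨i, j, k, hij, rfl, hz⟩

theorem nat_eq_of_real {a : ℕ} {i j : ℕ} (hi : i < a) (hj : j < a) {n : ℤ}
    (h : (i : ℝ) = j + n * a) : i = j := by
  have h1 : (i : ℤ) = j + n * a := by exact_mod_cast h
  have h2 : (i : ℤ) % a = (j : ℤ) % a := by rw [h1]; simp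
  rw [Int.emod_eq_of_lt (by positivity) (by exact_mod_cast hi),
    Int.emod_eq_of_lt (by positivity) (by exact_mod_cast hj)] at h2
  exact_mod_cast h2

theorem nat_succ_of_real {a : ℕ} {i j : ℕ} (hj : j < a) {n : ℤ}
    (h : (i : ℝ) + 1 = j + n * a) : j = (i + 1) % a := by
  have h1 : (i : ℤ) + 1 = j + n * a := by exact_mod_cast h
  have h2 : ((i : ℤ) + 1) % a = (j : ℤ) % a := by rw [h1]; simp
  rw [Int.emod_eq_of_lt (a := (j : ℤ)) (by positivity) (by exact_mod_cast hj)] at h2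
  have h3 : (((i + 1) % a : ℕ) : ℤ) = j := by push_cast; exact h2
  exact_mod_cast h3.symm

theorem gridPt_inj {a : ℕ} (ha : 0 < a) : Function.Injective (gridPt a) := by
  rintro ⟨i, k⟩ ⟨j, l⟩ h
  obtain ⟨h1, n, h2⟩ := polar_unique ha (by positivity) (by positivity) h
  have h3 : k = l := by
    have : (k : ℝ) = l := by linarith
    exact_mod_cast this
  have h4 : (i : ℕ) = j := nat_eq_of_real i.2 j.2 h2
  exact Prod.ext (Fin.ext h4) h3

theorem ang_succ {a : ℕ} (ha : 0 < a) (i j : ℕ) (h : j = (i + 1) % a) :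
    ang a ((i : ℝ) + 1) = ang a j := by
  have h1 : (i : ℝ) + 1 = j + ((((i + 1) / a : ℕ) : ℤ) : ℝ) * a := by
    have := Nat.mod_add_div (i + 1) a
    rw [← h] at this
    have h2 : ((j + a * ((i + 1) / a) : ℕ) : ℝ) = ((i + 1 : ℕ) : ℝ) := by exact_mod_cast this
    rw [Int.cast_natCast]
    rw [Nat.cast_add, Nat.cast_mul, Nat.cast_add, Nat.cast_one] at h2
    linarith
  rw [h1, ang_add_int_mul ha]

theorem radial_path {a : ℕ} (ha : 0 < a) (i : Fin a) (k : ℕ) :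
    ∃ γ : _root_.Path (gridPt a (i, k)) (gridPt a (i, k + 1)),
      Function.Injective γ ∧ Set.range γ = radial a i k := by
  refine ⟨⟨⟨fun t => (((k : ℝ) + 1 + t : ℝ) : ℂ) * ang a (i : ℕ), by fun_prop⟩, ?_, ?_⟩, ?_, ?_⟩
  · simp [gridPt]
  · simp [gridPt]
  · intro t s h
    have ht := t.2.1
    have hs := s.2.1
    obtain ⟨h1, -⟩ := polar_unique ha (r := (k : ℝ) + 1 + t) (r' := (k : ℝ) + 1 + s)
      (by positivity) (by positivity) h
    exact Subtype.ext (by linarith)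
  · ext z
    constructor
    · rintro ⟨t, rfl⟩
      exact ⟨(k : ℝ) + 1 + t, by linarith [t.2.1], by linarith [t.2.2], rfl⟩
    · rintro ⟨r, h1, h2, rfl⟩
      refine ⟨⟨r - (k + 1), by constructor <;> linarith⟩, ?_⟩
      show (((k : ℝ) + 1 + (r - (k + 1)) : ℝ) : ℂ) * ang a (i : ℕ) = _
      congr 2
      ring

theorem circ_path {a : ℕ} (ha : 3 ≤ a) (i j : Fin a) (k : ℕ) (hij : (j : ℕ) = (i + 1) % a) :
    ∃ γ : _root_.Path (gridPt a (i, k)) (gridPt a (j, k)),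
      Function.Injective γ ∧ Set.range γ = circ a i k := by
  have ha0 : 0 < a := by omega
  refine ⟨⟨⟨fun t => (((k : ℝ) + 1 : ℝ) : ℂ) * ang a ((i : ℕ) + t), ?_⟩, ?_, ?_⟩, ?_, ?_⟩
  · have := continuous_ang a
    fun_prop
  · simp [gridPt]
  · show (((k : ℝ) + 1 : ℝ) : ℂ) * ang a ((i : ℕ) + ((1 : unitInterval) : ℝ)) = _
    rw [Set.Icc.coe_one, ang_succ ha0 i j hij]
    rfl
  · intro t s h
    have ht := t.2
    have hs := s.2
    obtain ⟨-, n, h1⟩ := polar_unique ha0 (r := (k : ℝ) + 1) (r' := (k : ℝ) + 1)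
      (by positivity) (by positivity) h
    have h3 : (a : ℝ) ≥ 3 := by exact_mod_cast ha
    have h4 : n = 0 := by
      by_contra hn
      rcases lt_or_gt_of_ne hn with h5 | h5
      · have h6 : (n : ℝ) ≤ -1 := by exact_mod_cast (by omega : n ≤ -1)
        nlinarith [ht.1, ht.2, hs.1, hs.2]
      · have h6 : (1 : ℝ) ≤ n := by exact_mod_cast (by omega : 1 ≤ n)
        nlinarith [ht.1, ht.2, hs.1, hs.2]
    rw [h4] at h1
    exact Subtype.ext (by push_cast at h1; linarith)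
  · ext z
    constructor
    · rintro ⟨t, rfl⟩
      exact ⟨(i : ℕ) + t, by linarith [t.2.1], by linarith [t.2.2], rfl⟩
    · rintro ⟨r, h1, h2, rfl⟩
      refine ⟨⟨r - (i : ℕ), by constructor <;> linarith⟩, ?_⟩
      show (((k : ℝ) + 1 : ℝ) : ℂ) * ang a ((i : ℕ) + (r - (i : ℕ))) = _
      congr 2
      ring

theorem pt_mem_radial {a : ℕ} (ha : 0 < a) {i : Fin a} {k : ℕ} {w : Fin a × ℕ}
    (h : gridPt a w ∈ radial a i k) : w = (i, k) ∨ w = (i, k + 1) := by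
  obtain ⟨j, l⟩ := w
  obtain ⟨r, h1, h2, h3⟩ := h
  obtain ⟨h4, n, h5⟩ := polar_unique ha (r := (l : ℝ) + 1) (r' := r) (by positivity)
    (by have : (0 : ℝ) ≤ k := by positivity
        linarith) h3
  have h6 : (j : ℕ) = i := nat_eq_of_real j.2 i.2 h5
  have h7 : j = i := Fin.ext h6
  subst h7
  have h8 : k ≤ l := by
    have : (k : ℝ) ≤ l := by linarith
    exact_mod_cast this
  have h9 : l ≤ k + 1 := by
    have : (l : ℝ) ≤ (k + 1 : ℕ) := by push_cast; linarith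
    exact_mod_cast this
  have h10 : l = k ∨ l = k + 1 := by omega
  rcases h10 with h10 | h10 <;> simp [h10]

theorem ang_between {a : ℕ} {i j : ℕ} (hi : i < a) (hj : j < a) {t : ℝ}
    (h1 : (i : ℝ) ≤ t) (h2 : t ≤ i + 1) {n : ℤ} (h : t = j + n * a) :
    j = i ∨ j = (i + 1) % a := by
  have h3 : (i : ℤ) ≤ j + n * a := by
    have : ((i : ℤ) : ℝ) ≤ ((j + n * a : ℤ) : ℝ) := by push_cast; linarith
    exact_mod_cast this
  have h4 : (j + n * a : ℤ) ≤ i + 1 := by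
    have : ((j + n * a : ℤ) : ℝ) ≤ ((i + 1 : ℤ) : ℝ) := by push_cast; linarith
    exact_mod_cast this
  have h5 : (j + n * a : ℤ) = i ∨ (j + n * a : ℤ) = i + 1 := by omega
  rcases h5 with h5 | h5
  · left
    have : (i : ℝ) = j + n * a := by exact_mod_cast h5.symm
    exact (nat_eq_of_real hi hj this).symm
  · right
    have : (i : ℝ) + 1 = j + n * a := by exact_mod_cast h5.symm
    exact nat_succ_of_real hj this

theorem pt_mem_circ {a : ℕ} (ha : 0 < a) {i j : Fin a} {k : ℕ} (hij : (j : ℕ) = (i + 1) % a)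
    {w : Fin a × ℕ} (h : gridPt a w ∈ circ a i k) : w = (i, k) ∨ w = (j, k) := by
  obtain ⟨j', l⟩ := w
  obtain ⟨t, h1, h2, h3⟩ := h
  obtain ⟨h4, n, h5⟩ := polar_unique ha (r := (k : ℝ) + 1) (r' := (l : ℝ) + 1) (by positivity)
    (by positivity) h3.symm
  have h6 : l = k := by
    have : (l : ℝ) = k := by linarith
    exact_mod_cast this
  subst h6
  rcases ang_between i.2 j'.2 h1 h2 h5 with h | h
  · left; exact Prod.ext (Fin.ext h) rfl
  · right; exact Prod.ext (Fin.ext (h.trans hij.symm)) rfl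

theorem inter_radial_radial {a : ℕ} (ha : 0 < a) {i i' : Fin a} {k k' : ℕ} {z : ℂ}
    (hz : z ∈ radial a i k) (hz' : z ∈ radial a i' k') (hne : (i, k) ≠ (i', k')) :
    ∃ w : Fin a × ℕ, (w = (i, k) ∨ w = (i, k + 1)) ∧ (w = (i', k') ∨ w = (i', k' + 1)) ∧
      z = gridPt a w := by
  obtain ⟨r, h1, h2, h3⟩ := hz
  obtain ⟨r', h1', h2', h3'⟩ := hz'
  have hk : (0 : ℝ) ≤ k := by positivity
  have hk' : (0 : ℝ) ≤ k' := by positivity
  obtain ⟨h4, n, h5⟩ := polar_unique ha (r := r) (r' := r') (by linarith) (by linarith)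
    (h3.symm.trans h3')
  have h6 : i = i' := Fin.ext (nat_eq_of_real i.2 i'.2 h5)
  subst h6
  subst h4
  have h7 : k ≠ k' := fun h => hne (by rw [h])
  have h8 : k ≤ k' + 1 := by
    have : (k : ℝ) ≤ (k' + 1 : ℕ) := by push_cast; linarith
    exact_mod_cast this
  have h9 : k' ≤ k + 1 := by
    have : (k' : ℝ) ≤ (k + 1 : ℕ) := by push_cast; linarith
    exact_mod_cast this
  rcases (by omega : k = k' + 1 ∨ k' = k + 1) with h | h
  · subst h
    refine ⟨(i, k' + 1), by simp, by simp, ?_⟩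
    rw [h3]
    show _ = (((k' + 1 : ℕ) + 1 : ℝ) : ℂ) * ang a (i : ℕ)
    congr 2
    push_cast at h1 ⊢
    linarith
  · subst h
    refine ⟨(i, k + 1), by simp, by simp, ?_⟩
    rw [h3]
    show _ = (((k + 1 : ℕ) + 1 : ℝ) : ℂ) * ang a (i : ℕ)
    congr 2
    push_cast at h1' ⊢
    linarith

theorem inter_radial_circ {a : ℕ} (ha : 0 < a) {i i' j' : Fin a} {k k' : ℕ} {z : ℂ}
    (hij : (j' : ℕ) = (i' + 1) % a)
    (hz : z ∈ radial a i k) (hz' : z ∈ circ a i' k') :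
    ∃ w : Fin a × ℕ, (w = (i, k) ∨ w = (i, k + 1)) ∧ (w = (i', k') ∨ w = (j', k')) ∧
      z = gridPt a w := by
  obtain ⟨r, h1, h2, h3⟩ := hz
  obtain ⟨t, h1', h2', h3'⟩ := hz'
  have hk : (0 : ℝ) ≤ k := by positivity
  obtain ⟨h4, n, h5⟩ := polar_unique ha (r := (k' : ℝ) + 1) (r' := r) (by positivity)
    (by linarith) (h3'.symm.trans h3)
  have h6 : z = gridPt a (i, k') := by
    rw [h3, ← h4]
    rfl
  have h8 : k ≤ k' := by
    have : (k : ℝ) ≤ k' := by linarith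
    exact_mod_cast this
  have h9 : k' ≤ k + 1 := by
    have : (k' : ℝ) ≤ (k + 1 : ℕ) := by push_cast; linarith
    exact_mod_cast this
  refine ⟨(i, k'), ?_, ?_, h6⟩
  · rcases (by omega : k' = k ∨ k' = k + 1) with h | h <;> simp [h]
  · rcases ang_between i'.2 i.2 h1' h2' h5 with h | h
    · left; exact Prod.ext (Fin.ext h) rfl
    · right; exact Prod.ext (Fin.ext (h.trans hij.symm)) rfl

theorem inter_circ_circ {a : ℕ} (ha : 3 ≤ a) {i j i' j' : Fin a} {k k' : ℕ} {z : ℂ}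
    (hij : (j : ℕ) = (i + 1) % a) (hij' : (j' : ℕ) = (i' + 1) % a)
    (hz : z ∈ circ a i k) (hz' : z ∈ circ a i' k') (hne : (i, k) ≠ (i', k')) :
    ∃ w : Fin a × ℕ, (w = (i, k) ∨ w = (j, k)) ∧ (w = (i', k') ∨ w = (j', k')) ∧
      z = gridPt a w := by
  have ha0 : 0 < a := by omega
  obtain ⟨t, h1, h2, h3⟩ := hz
  obtain ⟨t', h1', h2', h3'⟩ := hz'
  obtain ⟨h4, n, h5⟩ := polar_unique ha0 (r := (k : ℝ) + 1) (r' := (k' : ℝ) + 1) (by positivity)
    (by positivity) (h3.symm.trans h3')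
  have h6 : k = k' := by
    have : (k : ℝ) = k' := by linarith
    exact_mod_cast this
  subst h6
  have h7 : i ≠ i' := fun h => hne (by rw [h])
  have h8 : (i : ℤ) ≤ i' + n * a + 1 := by
    have : ((i : ℤ) : ℝ) ≤ ((i' + n * a + 1 : ℤ) : ℝ) := by push_cast; linarith
    exact_mod_cast this
  have h9 : (i' + n * a : ℤ) ≤ i + 1 := by
    have : ((i' + n * a : ℤ) : ℝ) ≤ ((i + 1 : ℤ) : ℝ) := by push_cast; linarith
    exact_mod_cast this
  rcases (by omega : (i : ℤ) = i' + n * a ∨ (i : ℤ) = i' + n * a + 1 ∨ (i' + n * a : ℤ) = i + 1)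
    with h | h | h
  · exfalso
    have : ((i : ℕ) : ℝ) = (i' : ℕ) + n * a := by exact_mod_cast h
    exact h7 (Fin.ext (nat_eq_of_real i.2 i'.2 this))
  · -- `t = i`, `t' = i' + 1`
    have h10 : ((i : ℕ) : ℝ) = (i' : ℕ) + n * a + 1 := by exact_mod_cast h
    have h11 : t = (i : ℕ) := by linarith
    have h12 : ((i' : ℕ) : ℝ) + 1 = (i : ℕ) + ((-n : ℤ) : ℝ) * a := by push_cast; linarith
    have h13 : (i : ℕ) = (i' + 1) % a := nat_succ_of_real i.2 h12
    refine ⟨(i, k), by simp, Or.inr (Prod.ext (Fin.ext (h13.trans hij'.symm)) rfl), ?_⟩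
    rw [h3, h11]
    rfl
  · -- `t = i + 1`, `t' = i'`
    have h10 : ((i' : ℕ) : ℝ) + n * a = (i : ℕ) + 1 := by exact_mod_cast h
    have h11 : t' = (i' : ℕ) := by linarith
    have h12 : ((i : ℕ) : ℝ) + 1 = (i' : ℕ) + n * a := by linarith
    have h13 : (i' : ℕ) = (i + 1) % a := nat_succ_of_real i'.2 h12
    refine ⟨(i', k), Or.inr (Prod.ext (Fin.ext (h13.trans hij.symm)) rfl), by simp, ?_⟩
    rw [h3', h11]
    rfl

theorem isPlanar_grid {a : ℕ} (ha : 3 ≤ a) : IsPlanar (grid a) := by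
  have ha0 : 0 < a := by omega
  refine ⟨gridPt a, gridArc a, gridPt_inj ha0, ?_, ?_, ?_⟩
  · rintro ⟨i, k⟩ ⟨j, l⟩ ⟨hne, (⟨h1, h2⟩ | ⟨h1, h2⟩) | (⟨h1, h2⟩ | ⟨h1, h2⟩)⟩
    · simp only at h1 h2
      subst h1 h2
      rw [gridArc_radial]
      exact radial_path ha0 i k
    · simp only at h1 h2
      subst h1
      rw [gridArc_circ ha i j k h2]
      exact circ_path ha i j k h2
    · simp only at h1 h2
      subst h1 h2
      rw [Sym2.eq_swap, gridArc_radial]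
      obtain ⟨γ, h3, h4⟩ := radial_path ha0 j l
      refine ⟨γ.symm, ?_, by rw [Path.symm_range, h4]⟩
      intro x y hxy
      exact unitInterval.symm_bijective.injective (h3 hxy)
    · simp only at h1 h2
      subst h1
      rw [Sym2.eq_swap, gridArc_circ ha j i l h2]
      obtain ⟨γ, h3, h4⟩ := circ_path ha j i l h2
      refine ⟨γ.symm, ?_, by rw [Path.symm_range, h4]⟩
      intro x y hxy
      exact unitInterval.symm_bijective.injective (h3 hxy)
  · rintro ⟨i, k⟩ ⟨j, l⟩ w ⟨hne, (⟨h1, h2⟩ | ⟨h1, h2⟩) | (⟨h1, h2⟩ | ⟨h1, h2⟩)⟩ hw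
    · simp only at h1 h2
      subst h1 h2
      rw [gridArc_radial] at hw
      exact pt_mem_radial ha0 hw
    · simp only at h1 h2
      subst h1
      rw [gridArc_circ ha i j k h2] at hw
      exact pt_mem_circ ha0 h2 hw
    · simp only at h1 h2
      subst h1 h2
      rw [Sym2.eq_swap, gridArc_radial] at hw
      exact (pt_mem_radial ha0 hw).symm
    · simp only at h1 h2
      subst h1
      rw [Sym2.eq_swap, gridArc_circ ha j i l h2] at hw
      exact (pt_mem_circ ha0 h2 hw).symm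
  · rintro e - f - hne z ⟨⟨i, k, rfl, hz⟩ | ⟨i, j, k, hij, rfl, hz⟩,
      ⟨i', k', rfl, hz'⟩ | ⟨i', j', k', hij', rfl, hz'⟩⟩
    · obtain ⟨w, h1, h2, h3⟩ := inter_radial_radial ha0 hz hz' (by
        intro h
        rw [Prod.mk.injEq] at h
        exact hne (by rw [h.1, h.2]))
      exact ⟨w, by simpa using h1, by simpa using h2, h3⟩
    · obtain ⟨w, h1, h2, h3⟩ := inter_radial_circ ha0 hij' hz hz'
      exact ⟨w, by simpa using h1, by simpa using h2, h3⟩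
    · obtain ⟨w, h1, h2, h3⟩ := inter_radial_circ ha0 hij hz' hz
      exact ⟨w, by simpa using h2, by simpa using h1, h3⟩
    · obtain ⟨w, h1, h2, h3⟩ := inter_circ_circ ha hij hij' hz hz' (by
        intro h
        rw [Prod.mk.injEq] at h
        obtain ⟨rfl, rfl⟩ := h
        have : j = j' := Fin.ext (by omega)
        exact hne (by rw [this]))
      exact ⟨w, by simpa using h1, by simpa using h2, h3⟩

/-- `L` is a linear forest laid out by the injective position function `ρ` with values `< M`: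
adjacent vertices have consecutive positions. -/
structure Layout {W : Type*} (L : SimpleGraph W) (ρ : W → ℕ) (M : ℕ) : Prop where
  inj : Function.Injective ρ
  lt : ∀ w, ρ w < M
  adj : ∀ u v, L.Adj u v → ρ v = ρ u + 1 ∨ ρ u = ρ v + 1

theorem cycle_adj_succ {b : ℕ} {z z' : Fin b} (h : (cycleGraph b).Adj z z') :
    (z' : ℕ) = (z + 1) % b ∨ (z : ℕ) = (z' + 1) % b := by
  have key : ∀ x y : Fin b, (x - y).val = 1 → (x : ℕ) = (y + 1) % b := by
    intro x y hxy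
    have hx := x.2
    have hy := y.2
    have hb : b ≠ 0 := by omega
    rw [Fin.sub_def] at hxy
    simp only at hxy
    rcases Nat.lt_or_ge (x : ℕ) y with h | h
    · rw [Nat.mod_eq_of_lt (by omega)] at hxy
      have : (y + 1 : ℕ) = b + x := by omega
      rw [this, Nat.add_mod_left, Nat.mod_eq_of_lt hx]
    · have h1 : b - (y : ℕ) + x = (x - y) + b := by omega
      rw [h1, Nat.add_mod_right, Nat.mod_eq_of_lt (by omega)] at hxy
      have : (y + 1 : ℕ) = x := by omega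
      rw [this, Nat.mod_eq_of_lt hx]
  rw [cycleGraph_adj'] at h
  rcases h with h | h
  · right; exact key _ _ h
  · left; exact key _ _ h

theorem grid_adj_radial {a : ℕ} (i : Fin a) {k l : ℕ} (h : l = k + 1 ∨ k = l + 1) :
    (grid a).Adj (i, k) (i, l) := by
  refine ⟨?_, ?_⟩
  · intro h1
    rw [Prod.mk.injEq] at h1
    omega
  · rcases h with h | h
    · left; left; exact ⟨rfl, h⟩
    · right; left; exact ⟨rfl, h⟩

theorem grid_adj_circ {a : ℕ} {i j : Fin a} (k : ℕ) (h : (cycleGraph a).Adj i j) :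
    (grid a).Adj (i, k) (j, k) := by
  refine ⟨?_, ?_⟩
  · intro h1
    rw [Prod.mk.injEq] at h1
    exact h.ne h1.1
  · rcases cycle_adj_succ h with h | h
    · left; right; exact ⟨rfl, h⟩
    · right; right; exact ⟨rfl, h⟩

theorem add_mul_inj {M p q s t : ℕ} (hp : p < M) (hq : q < M) (h : p + M * s = q + M * t) :
    p = q ∧ s = t := by
  have h1 : (p + M * s) % M = (q + M * t) % M := by rw [h]
  rw [Nat.add_mul_mod_self_left, Nat.add_mul_mod_self_left, Nat.mod_eq_of_lt hp,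
    Nat.mod_eq_of_lt hq] at h1
  subst h1
  have hM : 0 < M := by omega
  exact ⟨rfl, Nat.eq_of_mul_eq_mul_left hM (by omega)⟩

theorem planar_one {W : Type*} {L : SimpleGraph W} {ρ : W → ℕ} {M : ℕ} (hL : Layout L ρ M)
    {b c : ℕ} (hb : 3 ≤ b) :
    IsPlanar ((L □ cycleGraph b) □ (⊥ : SimpleGraph (Fin c))) := by
  refine (isPlanar_grid hb).of_injective (fun v => (v.1.2, ρ v.1.1 + M * (v.2 : ℕ))) ?_ ?_
  · rintro ⟨⟨w, z⟩, t⟩ ⟨⟨w', z'⟩, t'⟩ h
    simp only [Prod.mk.injEq] at h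
    obtain ⟨h1, h2⟩ := h
    obtain ⟨h3, h4⟩ := add_mul_inj (hL.lt w) (hL.lt w') h2
    have h5 := hL.inj h3
    have h6 : t = t' := Fin.ext h4
    rw [h1, h5, h6]
  · rintro ⟨⟨w, z⟩, t⟩ ⟨⟨w', z'⟩, t'⟩ h
    simp only [boxProd_adj, bot_adj, false_and, or_false] at h
    obtain ⟨⟨h1, h2⟩ | ⟨h1, h2⟩, h3⟩ := h
    · subst h2 h3
      apply grid_adj_radial
      rcases hL.adj _ _ h1 with h | h
      · left; simp only; omega
      · right; simp only; omega
    · subst h2 h3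
      exact grid_adj_circ _ h1

theorem planar_two {W : Type*} {L : SimpleGraph W} {ρ : W → ℕ} {M : ℕ} (hL : Layout L ρ M)
    {b c : ℕ} (hc : 3 ≤ c) :
    IsPlanar ((L □ (⊥ : SimpleGraph (Fin b))) □ cycleGraph c) := by
  refine (isPlanar_grid hc).of_injective (fun v => (v.2, ρ v.1.1 + M * (v.1.2 : ℕ))) ?_ ?_
  · rintro ⟨⟨w, z⟩, t⟩ ⟨⟨w', z'⟩, t'⟩ h
    simp only [Prod.mk.injEq] at h
    obtain ⟨h1, h2⟩ := h
    obtain ⟨h3, h4⟩ := add_mul_inj (hL.lt w) (hL.lt w') h2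
    have h5 := hL.inj h3
    have h6 : z = z' := Fin.ext h4
    rw [h1, h5, h6]
  · rintro ⟨⟨w, z⟩, t⟩ ⟨⟨w', z'⟩, t'⟩ h
    simp only [boxProd_adj, bot_adj, false_and, or_false] at h
    rcases h with ⟨⟨h1, h2⟩, h3⟩ | ⟨h1, h2⟩
    · subst h2 h3
      apply grid_adj_radial
      rcases hL.adj _ _ h1 with h | h
      · left; simp only; omega
      · right; simp only; omega
    · rw [Prod.mk.injEq] at h2
      obtain ⟨h2, h3⟩ := h2
      subst h2 h3
      exact grid_adj_circ _ h1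

theorem biplanar_of_layouts {W : Type*} {H L₁ L₂ : SimpleGraph W} {ρ₁ ρ₂ : W → ℕ} {M₁ M₂ : ℕ}
    (h₁ : Layout L₁ ρ₁ M₁) (h₂ : Layout L₂ ρ₂ M₂)
    (hdisj : ∀ u v, L₁.Adj u v → ¬ L₂.Adj u v) (hcov : ∀ u v, H.Adj u v ↔ L₁.Adj u v ∨ L₂.Adj u v)
    {b c : ℕ} (hb : 3 ≤ b) (hc : 3 ≤ c) :
    IsBiplanar ((H □ cycleGraph b) □ cycleGraph c) := by
  refine ⟨_, _, planar_one h₁ (b := b) (c := c) hb, planar_two h₂ (b := b) (c := c) hc, ?_, ?_⟩
  · rw [Set.disjoint_left]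
    intro e
    induction e using Sym2.ind with
    | _ x y =>
      obtain ⟨⟨w, z⟩, t⟩ := x
      obtain ⟨⟨w', z'⟩, t'⟩ := y
      simp only [mem_edgeSet, boxProd_adj, bot_adj, false_and, or_false]
      rintro ⟨⟨h1, h2⟩ | ⟨h1, h2⟩, h3⟩ (⟨⟨h4, h5⟩, h6⟩ | ⟨h4, h5⟩)
      · exact hdisj _ _ h1 h4
      · exact h4.ne h3
      · exact h1.ne h5
      · exact h4.ne h3
  · ext e
    induction e using Sym2.ind with
    | _ x y =>
      obtain ⟨⟨w, z⟩, t⟩ := x
      obtain ⟨⟨w', z'⟩, t'⟩ := y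
      simp only [Set.mem_union, mem_edgeSet, boxProd_adj, bot_adj, false_and, or_false, hcov]
      tauto

/-- First linear forest of `P_m □ C_a`: a spiral Hamiltonian path. -/
def rel₁ (m a : ℕ) (u v : Fin m × Fin a) : Prop :=
  (u.1 = v.1 ∧ (v.2 : ℕ) = (u.2 + 1) % a ∧ ((u.1 : ℕ) + u.2) % a ≠ a - 1) ∨
  (u.2 = v.2 ∧ (v.1 : ℕ) = u.1 + 1 ∧ ((u.1 : ℕ) + u.2) % a = a - 1)

/-- Second linear forest of `P_m □ C_a`: the remaining edges. -/
def rel₂ (m a : ℕ) (u v : Fin m × Fin a) : Prop :=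
  (u.1 = v.1 ∧ (v.2 : ℕ) = (u.2 + 1) % a ∧ ((u.1 : ℕ) + u.2) % a = a - 1) ∨
  (u.2 = v.2 ∧ (v.1 : ℕ) = u.1 + 1 ∧ ((u.1 : ℕ) + u.2) % a ≠ a - 1)

def pos₁ (m a : ℕ) (u : Fin m × Fin a) : ℕ := ((u.1 : ℕ) + u.2) % a + a * u.1

/-- `(x + (a - 1 - s)) / (a - 1)` and so on, where `s = (x + y) % a`. -/
def pos₂ (m a : ℕ) (u : Fin m × Fin a) : ℕ :=
  ((u.1 + (a - 1 - ((u.1 : ℕ) + u.2) % a)) / (a - 1) * a + ((u.1 : ℕ) + u.2) % a) +
    ((m + a) * a) * ((u.1 + (a - 1 - ((u.1 : ℕ) + u.2) % a)) % (a - 1))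

theorem succ_mod_of_ne {n a : ℕ} (ha : 0 < a) (h : n % a ≠ a - 1) : (n + 1) % a = n % a + 1 := by
  have h1 := Nat.mod_lt n ha
  rw [← Nat.mod_add_mod, Nat.mod_eq_of_lt (by omega)]

theorem succ_mod_of_eq {n a : ℕ} (ha : 0 < a) (h : n % a = a - 1) : (n + 1) % a = 0 := by
  rw [← Nat.mod_add_mod, h, Nat.sub_add_cancel ha, Nat.mod_self]

theorem add_mod_cancel {a x y y' : ℕ} (hy : y < a) (hy' : y' < a)
    (h : (x + y) % a = (x + y') % a) : y = y' := by
  have h1 : x + y ≡ x + y' [MOD a] := h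
  have h2 : y ≡ y' [MOD a] := Nat.ModEq.add_left_cancel' x h1
  exact Nat.ModEq.eq_of_lt_of_lt h2 hy hy'

theorem layout₁ {m a : ℕ} (ha : 3 ≤ a) :
    Layout (SimpleGraph.fromRel (rel₁ m a)) (pos₁ m a) (a * m) := by
  have ha0 : 0 < a := by omega
  have key : ∀ u v, rel₁ m a u v → pos₁ m a v = pos₁ m a u + 1 := by
    rintro ⟨x, y⟩ ⟨x', y'⟩ (⟨h1, h2, h3⟩ | ⟨h1, h2, h3⟩)
    · simp only at h1 h2 h3
      subst h1
      simp only [pos₁]
      rw [h2, Nat.add_mod_mod, ← add_assoc, succ_mod_of_ne ha0 h3]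
      omega
    · simp only at h1 h2 h3
      subst h1
      simp only [pos₁]
      rw [h2, h3, (by omega : (x : ℕ) + 1 + y = (x + y) + 1), succ_mod_of_eq ha0 h3, mul_add]
      omega
  refine ⟨?_, ?_, ?_⟩
  · rintro ⟨x, y⟩ ⟨x', y'⟩ h
    simp only [pos₁] at h
    obtain ⟨h1, h2⟩ := add_mul_inj (Nat.mod_lt _ ha0) (Nat.mod_lt _ ha0) h
    rw [h2] at h1
    have h3 : y = y' := Fin.ext (add_mod_cancel y.2 y'.2 h1)
    rw [h3, Fin.ext h2]
  · rintro ⟨x, y⟩
    simp only [pos₁]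
    have h1 := Nat.mod_lt ((x : ℕ) + y) ha0
    have h2 : a * (x + 1) ≤ a * m := Nat.mul_le_mul_left a x.2
    rw [mul_add] at h2
    omega
  · rintro u v ⟨-, h | h⟩
    · exact Or.inl (key _ _ h)
    · exact Or.inr (key _ _ h)

theorem layout₂ {m a : ℕ} (ha : 3 ≤ a) :
    Layout (SimpleGraph.fromRel (rel₂ m a)) (pos₂ m a) ((m + a) * a * (a - 1)) := by
  have ha0 : 0 < a := by omega
  have ha1 : 0 < a - 1 := by omega
  have key : ∀ u v, rel₂ m a u v → pos₂ m a v = pos₂ m a u + 1 := by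
    rintro ⟨x, y⟩ ⟨x', y'⟩ (⟨h1, h2, h3⟩ | ⟨h1, h2, h3⟩)
    · -- vertical step, `s = a - 1` goes to `s = 0`
      simp only at h1 h2 h3
      subst h1
      simp only [pos₂]
      rw [h2, Nat.add_mod_mod, ← add_assoc, succ_mod_of_eq ha0 h3, h3]
      simp only [Nat.sub_zero, Nat.sub_self, Nat.add_zero]
      rw [Nat.add_div_right _ ha1, Nat.add_mod_right, Nat.succ_mul]
      omega
    · simp only at h1 h2 h3
      subst h1
      simp only [pos₂]
      have h4 := Nat.mod_lt ((x : ℕ) + y) ha0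
      rw [h2, (by omega : (x : ℕ) + 1 + y = (x + y) + 1), succ_mod_of_ne ha0 h3,
        (by omega : (x : ℕ) + 1 + (a - 1 - ((x + y : ℕ) % a + 1)) = x + (a - 1 - (x + y : ℕ) % a))]
      omega
  have hbd : ∀ x y : ℕ, x < m →
      (x + (a - 1 - (x + y) % a)) / (a - 1) * a + (x + y) % a < (m + a) * a := by
    intro x y hx
    have h1 := Nat.mod_lt (x + y) ha0
    have h2 : (x + (a - 1 - (x + y) % a)) / (a - 1) ≤ x + (a - 1 - (x + y) % a) :=
      Nat.div_le_self _ _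
    have h3 : (x + (a - 1 - (x + y) % a)) / (a - 1) + 1 ≤ m + a := by omega
    calc (x + (a - 1 - (x + y) % a)) / (a - 1) * a + (x + y) % a
        < (x + (a - 1 - (x + y) % a)) / (a - 1) * a + a := by omega
      _ = ((x + (a - 1 - (x + y) % a)) / (a - 1) + 1) * a := by ring
      _ ≤ (m + a) * a := Nat.mul_le_mul_right a h3
  refine ⟨?_, ?_, ?_⟩
  · rintro ⟨x, y⟩ ⟨x', y'⟩ h
    simp only [pos₂] at h
    obtain ⟨h1, h2⟩ := add_mul_inj (hbd x y x.2) (hbd x' y' x'.2) h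
    have h3 := Nat.mod_lt ((x : ℕ) + y) ha0
    have h3' := Nat.mod_lt ((x' : ℕ) + y') ha0
    rw [add_comm, add_comm (_ * a) _, mul_comm _ a, mul_comm _ a] at h1
    obtain ⟨h4, h5⟩ := add_mul_inj h3 h3' h1
    have h6 : (x : ℕ) + (a - 1 - ((x : ℕ) + y) % a) = x' + (a - 1 - ((x' : ℕ) + y') % a) := by
      rw [← Nat.div_add_mod ((x : ℕ) + (a - 1 - ((x : ℕ) + y) % a)) (a - 1), h5, h2,
        Nat.div_add_mod]
    have h7 : (x : ℕ) = x' := by omega
    have h8 : x = x' := Fin.ext h7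
    subst h8
    have h9 : y = y' := Fin.ext (add_mod_cancel y.2 y'.2 h4)
    rw [h9]
  · rintro ⟨x, y⟩
    simp only [pos₂]
    have h1 := hbd x y x.2
    have h2 := Nat.mod_lt ((x : ℕ) + (a - 1 - ((x : ℕ) + y) % a)) ha1
    calc _ < (m + a) * a + (m + a) * a * (((x : ℕ) + (a - 1 - ((x : ℕ) + y) % a)) % (a - 1)) := by
          omega
      _ = (m + a) * a * (((x : ℕ) + (a - 1 - ((x : ℕ) + y) % a)) % (a - 1) + 1) := by ring
      _ ≤ (m + a) * a * (a - 1) := Nat.mul_le_mul_left _ h2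
  · rintro u v ⟨-, h | h⟩
    · exact Or.inl (key _ _ h)
    · exact Or.inr (key _ _ h)

theorem succ_mod_ne {a i : ℕ} (ha : 3 ≤ a) (hi : i < a) : (i + 1) % a ≠ i := by
  intro h
  rcases Nat.lt_or_ge (i + 1) a with h1 | h1
  · rw [Nat.mod_eq_of_lt h1] at h; omega
  · rw [(by omega : i + 1 = a), Nat.mod_self] at h; omega

theorem succ_mod_two {a i j : ℕ} (ha : 3 ≤ a) (hi : i < a) (h : j = (i + 1) % a)
    (h' : i = (j + 1) % a) : False := by
  rcases Nat.lt_or_ge (i + 1) a with h1 | h1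
  · rw [Nat.mod_eq_of_lt h1] at h
    rcases Nat.lt_or_ge (j + 1) a with h2 | h2
    · rw [Nat.mod_eq_of_lt h2] at h'; omega
    · rw [(by omega : j + 1 = a), Nat.mod_self] at h'; omega
  · rw [(by omega : i + 1 = a), Nat.mod_self] at h
    rw [h, Nat.mod_eq_of_lt (by omega)] at h'
    omega

theorem disj_rel {m a : ℕ} (ha : 3 ≤ a) (u v : Fin m × Fin a)
    (h₁ : (SimpleGraph.fromRel (rel₁ m a)).Adj u v) :
    ¬ (SimpleGraph.fromRel (rel₂ m a)).Adj u v := by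
  have key : ∀ u v, rel₁ m a u v → ¬ rel₂ m a u v := by
    rintro ⟨x, y⟩ ⟨x', y'⟩ (⟨h1, h2, h3⟩ | ⟨h1, h2, h3⟩) (⟨h4, h5, h6⟩ | ⟨h4, h5, h6⟩) <;>
      simp only at h1 h2 h3 h4 h5 h6
    · exact h3 h6
    · subst h1; omega
    · subst h4; omega
    · exact h6 h3
  have key' : ∀ u v, rel₁ m a u v → ¬ rel₂ m a v u := by
    rintro ⟨x, y⟩ ⟨x', y'⟩ (⟨h1, h2, h3⟩ | ⟨h1, h2, h3⟩) (⟨h4, h5, h6⟩ | ⟨h4, h5, h6⟩) <;>
      simp only at h1 h2 h3 h4 h5 h6
    · exact succ_mod_two ha y.2 h2 h5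
    · subst h1; omega
    · subst h4; omega
    · omega
  rintro ⟨-, h | h⟩ <;> obtain ⟨-, h₁ | h₁⟩ := h₁
  · exact key _ _ h₁ h
  · exact key' _ _ h₁ h
  · exact key' _ _ h₁ h
  · exact key _ _ h₁ h

theorem cycle_adj_of_succ {b : ℕ} (hb : 3 ≤ b) {z z' : Fin b} (h : (z' : ℕ) = (z + 1) % b) :
    (cycleGraph b).Adj z z' := by
  rw [cycleGraph_adj']
  right
  have hz := z.2
  rw [Fin.sub_def]
  simp only
  rw [h, Nat.add_mod_mod, (by omega : b - (z : ℕ) + (z + 1) = 1 + b), Nat.add_mod_right,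
    Nat.mod_eq_of_lt (by omega)]

theorem cover_rel {m a : ℕ} (ha : 3 ≤ a) (u v : Fin m × Fin a) :
    (pathGraph m □ cycleGraph a).Adj u v ↔
      (SimpleGraph.fromRel (rel₁ m a)).Adj u v ∨ (SimpleGraph.fromRel (rel₂ m a)).Adj u v := by
  have hr : ∀ u v : Fin m × Fin a, (rel₁ m a u v ∨ rel₂ m a u v) ↔
      ((u.1 = v.1 ∧ (v.2 : ℕ) = (u.2 + 1) % a) ∨ (u.2 = v.2 ∧ (v.1 : ℕ) = u.1 + 1)) := by
    intro u v
    unfold rel₁ rel₂
    tauto
  have h1 : ((SimpleGraph.fromRel (rel₁ m a)).Adj u v ∨ (SimpleGraph.fromRel (rel₂ m a)).Adj u v) ↔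
      u ≠ v ∧ ((rel₁ m a u v ∨ rel₂ m a u v) ∨ (rel₁ m a v u ∨ rel₂ m a v u)) := by
    simp only [SimpleGraph.fromRel_adj]
    tauto
  rw [h1, hr, hr, boxProd_adj, pathGraph_adj]
  obtain ⟨x, y⟩ := u
  obtain ⟨x', y'⟩ := v
  simp only
  constructor
  · rintro (⟨h | h, h2⟩ | ⟨h, h2⟩)
    · subst h2
      refine ⟨?_, Or.inl (Or.inr ⟨rfl, h.symm⟩)⟩
      intro h3
      rw [Prod.mk.injEq] at h3
      have := h3.1
      subst this
      omega
    · subst h2
      refine ⟨?_, Or.inr (Or.inr ⟨rfl, h.symm⟩)⟩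
      intro h3
      rw [Prod.mk.injEq] at h3
      have := h3.1
      subst this
      omega
    · subst h2
      refine ⟨?_, ?_⟩
      · intro h3
        rw [Prod.mk.injEq] at h3
        exact h.ne h3.2
      · rcases cycle_adj_succ h with h | h
        · exact Or.inl (Or.inl ⟨rfl, h⟩)
        · exact Or.inr (Or.inl ⟨rfl, h⟩)
  · rintro ⟨-, (⟨h1, h2⟩ | ⟨h1, h2⟩) | (⟨h1, h2⟩ | ⟨h1, h2⟩)⟩
    · exact Or.inr ⟨cycle_adj_of_succ ha h2, h1⟩
    · exact Or.inl ⟨Or.inl h2.symm, h1⟩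
    · exact Or.inr ⟨(cycle_adj_of_succ ha h2).symm, h1.symm⟩
    · exact Or.inl ⟨Or.inr h2.symm, h1.symm⟩

/-- The mesh `P_m □ C_a □ C_b □ C_c` is biplanar for every `m` and all `a, b, c ≥ 3`; in
particular `P_n □ C_n □ C_n □ C_n` is biplanar for every `n ≥ 3`. -/
theorem result (m a b c : ℕ) (ha : 3 ≤ a) (hb : 3 ≤ b) (hc : 3 ≤ c) :
    IsBiplanar ((((pathGraph m).boxProd (cycleGraph a)).boxProd (cycleGraph b)).boxProd
      (cycleGraph c)) :=
  biplanar_of_layouts (layout₁ ha) (layout₂ ha) (disj_rel ha) (cover_rel ha) hb hc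

end Pool.Agent.Results.MP_d5a612_co.Biplanar
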